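import Mathlib
import Pool.Agent.H7Perm

set_option autoImplicit false
open Filter Topology

namespace Pool.Agent.Results.MP_514f39_an.PermNotBasis

section
variable (𝕜 : Type) [RCLike 𝕜] {E : Type} [NormedAddCommGroup E] [NormedSpace 𝕜 E]

/-- The series `∑_{i} f i` converges in norm to `y`. -/
def SeriesTo (f : ℕ → E) (y : E) : Prop :=
  Tendsto (fun N : ℕ => ∑ i ∈ Finset.range N, f i) atTop (𝓝 y)

/-- `(x_n)` is a Schauder basis: every `y` has exactly one expansion `y = ∑ α_n x_n`. -/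
def IsSchauderBasis (x : ℕ → E) : Prop :=
  ∀ y : E, ∃! α : ℕ → 𝕜, SeriesTo (fun n => α n • x n) y

/-- `(x_n)` is minimal: no `x_m` lies in the closed linear span of the other vectors. -/
def IsMinimal (x : ℕ → E) : Prop :=
  ∀ m : ℕ, x m ∉ closure ((Submodule.span 𝕜 {z : E | ∃ n, n ≠ m ∧ z = x n} : Submodule 𝕜 E) : Set E)

/-- Property (U): every `y` has a permuted expansion `y = ∑_i α_{σ(i)} x_{σ(i)}`, and the scalar
sequence of such an expansion (not the permutation) is unique. -/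
def PropertyU (x : ℕ → E) : Prop :=
  ∀ y : E,
    (∃ (α : ℕ → 𝕜) (σ : Equiv.Perm ℕ), SeriesTo (fun i => α (σ i) • x (σ i)) y) ∧
    (∀ (α β : ℕ → 𝕜) (σ π : Equiv.Perm ℕ), SeriesTo (fun i => α (σ i) • x (σ i)) y →
      SeriesTo (fun i => β (π i) • x (π i)) y → ∀ n, β n = α n)

end

/-- For both `𝕜 = ℝ` and `𝕜 = ℂ` there are a separable Banach space `E` over `𝕜` and a minimal
sequence in `E` with property (U), none of whose permutations is a Schauder basis of `E`. -/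
theorem result (𝕜 : Type) [RCLike 𝕜] :
    ∃ (E : Type) (_ : NormedAddCommGroup E) (_ : NormedSpace 𝕜 E) (_ : CompleteSpace E)
      (_ : TopologicalSpace.SeparableSpace E) (x : ℕ → E),
      PropertyU 𝕜 x ∧ IsMinimal 𝕜 x ∧
      ∀ τ : Equiv.Perm ℕ, ¬ IsSchauderBasis 𝕜 (fun n => x (τ n)) := by
  refine ⟨H7Perm.E 𝕜, inferInstance, inferInstance, inferInstance, H7Perm.sepE, H7Perm.xE 𝕜,
    ?_, ?_, ?_⟩
  · intro y
    refine ⟨?_, ?_⟩
    · obtain ⟨σ, hσ⟩ := H7Perm.main_conv y.1 (H7Perm.P_closure y.1 y.2)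
      refine ⟨fun n => y.1 (Sum.inl n), σ, ?_⟩
      exact (H7Perm.tendsto_E_iff (fun n => y.1 (Sum.inl n)) σ y).mpr hσ
    · intro α β σ π h1 h2 n
      rw [H7Perm.coord α σ y.1 ((H7Perm.tendsto_E_iff α σ y).mp h1) n,
        H7Perm.coord β π y.1 ((H7Perm.tendsto_E_iff β π y).mp h2) n]
  · exact H7Perm.minimalE
  · intro τ hb
    obtain ⟨y, hP, hy⟩ := H7Perm.not_conv (𝕜 := 𝕜) τ
    have hmem : y ∈ H7Perm.E 𝕜 := by
      obtain ⟨σ, hσ⟩ := H7Perm.main_conv y hP
      have h1 : y ∈ closure ((Submodule.span 𝕜 (Set.range (H7Perm.x 𝕜)) : Submodule 𝕜 (H7Perm.V 𝕜)) :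
          Set (H7Perm.V 𝕜)) := by
        refine mem_closure_of_tendsto hσ (Eventually.of_forall fun N => ?_)
        exact Submodule.sum_mem _ fun i _ =>
          Submodule.smul_mem _ _ (Submodule.subset_span ⟨_, rfl⟩)
      exact h1
    obtain ⟨α, hα, _⟩ := hb ⟨y, hmem⟩
    obtain ⟨γ, hγ⟩ : ∃ γ : ℕ → 𝕜, γ = fun n => α (τ.symm n) := ⟨_, rfl⟩
    have hαγ : ∀ i, α i = γ (τ i) := by intro i; rw [hγ]; simp
    have h1 : Tendsto (fun N : ℕ => ∑ i ∈ Finset.range N, γ (τ i) • H7Perm.xE 𝕜 (τ i)) atTop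
        (𝓝 ⟨y, hmem⟩) := by
      refine Tendsto.congr ?_ hα
      intro N
      apply Finset.sum_congr rfl
      intro i _
      beta_reduce
      rw [hαγ]
    have h2 := (H7Perm.tendsto_E_iff γ τ ⟨y, hmem⟩).mp h1
    have h3 : γ = fun n => y (Sum.inl n) := by
      ext n
      exact H7Perm.coord _ τ y h2 n
    rw [h3] at h2
    exact hy h2

end Pool.Agent.Results.MP_514f39_an.PermNotBasis
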